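import Pool.Agent.H35.QuatIso
import Pool.Agent.H35.Coloring
import Pool.Agent.H35.Dist

namespace Pool.Agent.Results.MP_d3aff2_co.InfiniteReplacement

open Quaternion Pool.Agent.H35

/-- A colouring `c` of `X` is distinguishing for the action of `Γ` on `X` if the identity is the
only element of `Γ` preserving the colour of every point. -/
def IsDistinguishing (Γ : Type*) {X C : Type*} [Group Γ] [MulAction Γ X] (c : X → C) : Prop :=
  ∀ g : Γ, (∀ x, c (g • x) = c x) → g = 1

/-- The distinguishing number: the least `k ≥ 1` such that there is a distinguishing colouring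
with `k` colours. -/
noncomputable def distinguishingNumber (Γ X : Type*) [Group Γ] [MulAction Γ X] : ℕ :=
  sInf {k : ℕ | 1 ≤ k ∧ ∃ c : X → Fin k, IsDistinguishing Γ c}

/-- The replacement number: the least `m` such that every colouring `c` of `X` with
`distinguishingNumber Γ X` colours can be turned into a distinguishing one (with the same palette)
by changing the colours of at most `m` points; it is `⊤` if there is no such `m`. -/
noncomputable def replacementNumber (Γ X : Type*) [Group Γ] [MulAction Γ X] : ℕ∞ :=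
  sInf {N : ℕ∞ | ∃ m : ℕ, N = m ∧
    ∀ c : X → Fin (distinguishingNumber Γ X), ∃ c' : X → Fin (distinguishingNumber Γ X),
      {x | c' x ≠ c x}.encard ≤ m ∧ IsDistinguishing Γ c'}

/-- The natural action of the group of isometries of a metric space on that space. -/
instance isometryAction (X : Type*) [MetricSpace X] : MulAction (X ≃ᵢ X) X where
  smul g x := g x
  one_smul _ := rfl
  mul_smul _ _ _ := rfl

lemma smul_def {X : Type*} [MetricSpace X] (g : X ≃ᵢ X) (x : X) : g • x = g x := rfl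

/-- The Euclidean group `E(n)`: all isometries of `ℝ^n`. -/
abbrev E (n : ℕ) : Type := EuclideanSpace ℝ (Fin n) ≃ᵢ EuclideanSpace ℝ (Fin n)

/-- extension of an isometry of the quaternions to a product -/
noncomputable def extIso (F : Type*) [NormedAddCommGroup F] [InnerProductSpace ℝ F] :
    (ℍ[ℝ] ≃ₗᵢ[ℝ] ℍ[ℝ]) →* Equiv.Perm (WithLp 2 (ℍ[ℝ] × F)) where
  toFun g :=
    { toFun := fun p => WithLp.toLp 2 (g p.fst, p.snd)
      invFun := fun p => WithLp.toLp 2 (g.symm p.fst, p.snd)
      left_inv := fun p => by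
        change WithLp.toLp 2 (g.symm (g p.fst), p.snd) = p
        rw [g.symm_apply_apply]
        rfl
      right_inv := fun p => by
        change WithLp.toLp 2 (g (g.symm p.fst), p.snd) = p
        rw [g.apply_symm_apply]
        rfl }
  map_one' := rfl
  map_mul' g h := rfl

lemma extIso_fst (F : Type*) [NormedAddCommGroup F] [InnerProductSpace ℝ F]
    (g : ℍ[ℝ] ≃ₗᵢ[ℝ] ℍ[ℝ]) (p : WithLp 2 (ℍ[ℝ] × F)) : (extIso F g p).fst = g p.fst := rfl

lemma extIso_snd (F : Type*) [NormedAddCommGroup F] [InnerProductSpace ℝ F]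
    (g : ℍ[ℝ] ≃ₗᵢ[ℝ] ℍ[ℝ]) (p : WithLp 2 (ℍ[ℝ] × F)) : (extIso F g p).snd = p.snd := rfl

lemma extIso_isometry (F : Type*) [NormedAddCommGroup F] [InnerProductSpace ℝ F]
    (g : ℍ[ℝ] ≃ₗᵢ[ℝ] ℍ[ℝ]) : Isometry (extIso F g) := by
  refine Isometry.of_dist_eq fun p q => ?_
  rw [WithLp.prod_dist_eq_of_L2, WithLp.prod_dist_eq_of_L2]
  simp only [extIso_fst, extIso_snd, g.dist_map]

/-- A family of isometries of `ℝ^n`, `n ≥ 4`. -/
theorem exists_family (n : ℕ) (hn : 4 ≤ n) (ι : Type) (hι : Cardinal.mk ι ≤ Cardinal.continuum) :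
    ∃ ρ : ι → Equiv.Perm (EuclideanSpace ℝ (Fin n)), (∀ ξ, Isometry (ρ ξ)) ∧ (∀ ξ, ρ ξ ≠ 1) ∧
      ∀ w : FreeGroup ι, w ≠ 1 → ∀ x, Phi ρ w x = x → ∀ ξ, ρ ξ x = x := by
  obtain ⟨τ, hτ⟩ := exists_algInd hι
  set F := EuclideanSpace ℝ (Fin (n - 4)) with hF
  have hfr : Module.finrank ℝ (WithLp 2 (ℍ[ℝ] × F)) = n := by
    have h1 : Module.finrank ℝ (WithLp 2 (ℍ[ℝ] × F)) = Module.finrank ℝ (ℍ[ℝ] × F) :=
      LinearEquiv.finrank_eq (WithLp.linearEquiv 2 ℝ (ℍ[ℝ] × F))
    rw [h1, Module.finrank_prod, Quaternion.finrank_eq_four, finrank_euclideanSpace,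
      Fintype.card_fin]
    omega
  let e : WithLp 2 (ℍ[ℝ] × F) ≃ₗᵢ[ℝ] EuclideanSpace ℝ (Fin n) :=
    (stdOrthonormalBasis ℝ (WithLp 2 (ℍ[ℝ] × F))).equiv (EuclideanSpace.basisFun (Fin n) ℝ)
      (finCongr hfr)
  let conj : Equiv.Perm (WithLp 2 (ℍ[ℝ] × F)) ≃* Equiv.Perm (EuclideanSpace ℝ (Fin n)) :=
    e.toEquiv.permCongrHom
  have hconj : ∀ g x, conj g x = e (g (e.symm x)) := fun g x => rfl
  let Ψ : (ℍ[ℝ] ≃ₗᵢ[ℝ] ℍ[ℝ]) →* Equiv.Perm (EuclideanSpace ℝ (Fin n)) :=
    (conj : Equiv.Perm (WithLp 2 (ℍ[ℝ] × F)) →* _).comp (extIso F)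
  have hΨ : ∀ g x, Ψ g x = e (extIso F g (e.symm x)) := fun g x => rfl
  have hΨfix : ∀ g x, Ψ g x = x ↔ g (e.symm x).fst = (e.symm x).fst := by
    intro g x
    rw [hΨ]
    constructor
    · intro h
      have h2 := congrArg e.symm h
      rw [e.symm_apply_apply] at h2
      have h3 := congrArg WithLp.fst h2
      rwa [extIso_fst] at h3
    · intro h
      have : extIso F g (e.symm x) = e.symm x := by
        change WithLp.toLp 2 (g (e.symm x).fst, (e.symm x).snd) = e.symm x
        rw [h]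
        rfl
      rw [this, e.apply_symm_apply]
  refine ⟨fun ξ => Ψ (gen τ ξ), ?_, ?_, ?_⟩
  · intro ξ
    exact e.isometry.comp ((extIso_isometry F (gen τ ξ)).comp e.symm.isometry)
  · intro ξ h1'
    have h1 : Ψ (gen τ ξ) = 1 := h1'
    have h2 : Ψ (gen τ ξ) (e (WithLp.toLp 2 (1, 0))) = e (WithLp.toLp 2 (1, 0)) := by
      rw [h1]
      rfl
    rw [hΨfix, e.symm_apply_apply] at h2
    change gen τ ξ 1 = 1 at h2
    have h3 : FreeGroup.lift (gen τ) (FreeGroup.of ξ) 1 = 1 := by
      rw [FreeGroup.lift_apply_of]; exact h2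
    exact one_ne_zero (free_off_zero τ hτ (FreeGroup.of ξ) (FreeGroup.of_ne_one ξ) 1 h3)
  · intro w hw x hx ξ
    have hcomp : Phi (fun ξ => Ψ (gen τ ξ)) w = Ψ (FreeGroup.lift (gen τ) w) := by
      have : Phi (fun ξ => Ψ (gen τ ξ)) = Ψ.comp (FreeGroup.lift (gen τ)) := by
        ext ζ : 1
        simp [Phi]
      rw [this]
      rfl
    rw [hcomp, hΨfix] at hx
    have h0 := free_off_zero τ hτ w hw _ hx
    rw [hΨfix, h0, map_zero]

theorem distinguishingNumber_eq_two (n : ℕ) (hn : 2 ≤ n) :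
    distinguishingNumber (E n) (EuclideanSpace ℝ (Fin n)) = 2 := by
  classical
  have hmem : 2 ∈ {k : ℕ | 1 ≤ k ∧ ∃ c : EuclideanSpace ℝ (Fin n) → Fin k,
      IsDistinguishing (E n) c} := by
    refine ⟨by norm_num, ?_⟩
    set S : Set (EuclideanSpace ℝ (Fin n)) :=
      {x | x = 0 ∨ ∃ k : Fin n, x = EuclideanSpace.single k (Real.sqrt (n + k))} with hS
    refine ⟨fun x => if x ∈ S then 1 else 0, fun g hg => ?_⟩
    refine isometry_eq_one hn g S hS ?_
    intro x hx
    by_contra hgx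
    have h1 := hg x
    simp only [smul_def, if_pos hx, if_neg hgx] at h1
    exact absurd h1 (by decide)
  refine le_antisymm (Nat.sInf_le hmem) ?_
  refine le_csInf ⟨2, hmem⟩ ?_
  rintro k ⟨hk1, c, hc⟩
  by_contra hlt
  have hk : k = 1 := by omega
  subst hk
  have h1 := hc (IsometryEquiv.neg _) (fun x => Subsingleton.elim _ _)
  have hn0 : 0 < n := by omega
  have h2 := congrArg (fun g : E n => g (EuclideanSpace.single ⟨0, hn0⟩ 1)) h1
  simp only [IsometryEquiv.neg_apply, IsometryEquiv.coe_one, id] at h2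
  have h3 := congrArg (fun v : EuclideanSpace ℝ (Fin n) => v ⟨0, hn0⟩) h2
  simp at h3
  norm_num at h3

/-- For every `n ≥ 4` the distinguishing number of `ℝ^n` is two, and the replacement number of
`ℝ^n` under the full Euclidean group is infinite. -/
theorem result : ∀ n : ℕ, 4 ≤ n →
    distinguishingNumber (E n) (EuclideanSpace ℝ (Fin n)) = 2 ∧
    replacementNumber (E n) (EuclideanSpace ℝ (Fin n)) = ⊤ := by
  intro n hn
  have hD := distinguishingNumber_eq_two n (by omega)
  refine ⟨hD, ?_⟩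
  rw [replacementNumber, sInf_eq_top]
  rintro N ⟨m, rfl, hm⟩
  exfalso
  rw [hD] at hm
  -- the index type
  have hcard : Cardinal.mk (Finset (EuclideanSpace ℝ (Fin n))) ≤ Cardinal.continuum := by
    have hn0 : 0 < n := by omega
    have : Nonempty (Fin n) := ⟨⟨0, hn0⟩⟩
    have h1 : Cardinal.mk (EuclideanSpace ℝ (Fin n)) = Cardinal.continuum := by
      rw [Cardinal.mk_congr (WithLp.equiv 2 (Fin n → ℝ))]
      simp only [Cardinal.mk_pi, Cardinal.mk_real, Cardinal.prod_const, Cardinal.lift_continuum,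
        Cardinal.mk_fin, Cardinal.lift_natCast]
      exact_mod_cast Cardinal.power_nat_eq Cardinal.aleph0_le_continuum (by omega : 1 ≤ n)
    have : Infinite (EuclideanSpace ℝ (Fin n)) := by
      rw [Cardinal.infinite_iff, h1]
      exact Cardinal.aleph0_le_continuum
    rw [Cardinal.mk_finset_of_infinite, h1]
  obtain ⟨ρ, hiso, hne, hfree⟩ := exists_family n hn _ hcard
  obtain ⟨c, hc⟩ := exists_coloring (fun F : Finset (EuclideanSpace ℝ (Fin n)) => F) ρ hfree
  obtain ⟨c', hc', hdist⟩ := hm c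
  have hfin : {x | c' x ≠ c x}.Finite := by
    rw [← Set.encard_ne_top_iff]
    exact ne_top_of_le_ne_top (ENat.natCast_ne_top m) hc'
  set F := hfin.toFinset with hF
  have hind : ∀ x, c' x = c x + ind F x := by
    intro x
    by_cases hx : x ∈ F
    · have h1 : c' x ≠ c x := by simpa [hF] using hx
      have h2 : ind F x = 1 := by simp [ind, hx]
      rw [h2]
      have h3 : ∀ a b : Fin 2, a ≠ b → a = b + 1 := by decide
      exact h3 _ _ h1
    · have h1 : c' x = c x := by simpa [hF] using hx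
      have h2 : ind F x = 0 := by simp [ind, hx]
      rw [h2, h1]
      exact (add_zero (c x : ZMod 2)).symm
  have hg := hdist (IsometryEquiv.mk (ρ F) (hiso F)) (fun x => by
    rw [smul_def]
    change c' (ρ F x) = c' x
    rw [hind, hind]
    exact hc F x)
  apply hne F
  ext1 x
  exact congrArg (fun g : E n => g x) hg

end Pool.Agent.Results.MP_d3aff2_co.InfiniteReplacement
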